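import Pool.Agent.Helper74.DI.St

/-!
# Project DI, module E2L (the language of a relation without a minor with exactly one one)
-/

set_option autoImplicit false

namespace Pool.Agent.Helper72.DI

open Pool.Agent.Helper74 Pool.Agent.Helper74.DI
open Pool.Agent.Helper74.NM (NC)

private theorem dc_symm {a b : Option ℕ} (h : Dc a b) : Dc b a := by
  rcases h with h | h
  · exact Or.inl (Ne.symm h)
  · by_cases hb : b = none
    · exact Or.inr hb
    · exact Or.inl (fun e => hb (e.trans h))

theorem hE2L (hE2K : StE2K) (hPAR : StPAR) : StE2L := by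
  intro n R hs hone
  obtain ⟨r, r', hr⟩ := hE2K n R hs hone
  refine ⟨r, r', ?_⟩
  have hp : ∀ y, (∃ z, R y z) → ∃ z, R z y := fun y ⟨z, hz⟩ => ⟨z, hs _ _ hz⟩
  refine hPAR (Fin n) (Option ℕ) R Dc r r' (fun x => ∃ y, R x y)
    (fun x y h => ⟨⟨y, h⟩, ⟨x, hs _ _ h⟩⟩) (fun x y hx hy => hr x y hx (hp y hy))
    (fun x y hx hy => ?_)
  have h1 := hr y x hy (hp x hx)
  constructor
  · intro h
    exact dc_symm (h1.1 (hs _ _ h))
  · intro h
    exact hs _ _ (h1.2 (dc_symm h))

end Pool.Agent.Helper72.DI
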